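import Pool.Agent.KS6_65.NNX.Main

/-!
# Uncovered vertices of random nearest neighbour trees: exponent of order `(log d) / d`

The definitions are those of the library module
`Pool/Graph/R_pool_sql_team_seeded_47a924f7/T6/H59/NN/Defs.lean`: `Torus d = (ℝ/ℤ)^d` with the
torus metric `dst`; `unif d` is the law of a sequence `x 0, x 1, …` of independent uniform points;
the parent of the vertex `i` is the nearest of the vertices `k < i`; `unc x n` is the set of the
uncovered vertices of the tree `T_n` on the vertices `0, …, n - 1`.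
-/

set_option autoImplicit false

namespace Pool.Agent.Results.MP_959362_pr.LogExponent

open MeasureTheory Filter Pool.Agent.T6.H59.NN

/-- Let `d ≥ 2 ^ 20` and `8 < w ≤ d`, and put `γ = log₂ (w / 8) / (w + 2 d)`; for `w = d` this is
`(log₂ d - 3) / (3 d)`.  The expected number of uncovered vertices of `T_n` is at least `c n ^ γ`
for some `c > 0` and all `n ≥ 1`.  For every `0 < δ < γ` and all large `n`, the probability that
there are at most `n ^ δ` uncovered vertices is at most `1 - n ^ δ / n`, and so less than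
`1 - 1 / n`. -/
theorem result (d : ℕ) (hd : 2 ^ 20 ≤ d) (w : ℕ) (hw8 : 8 < w) (hw : w ≤ d) :
    (∀ n : ℕ, Integrable (fun x => ((unc x n).card : ℝ)) (unif d)) ∧
    (∃ c : ℝ, 0 < c ∧ ∀ n : ℕ, 1 ≤ n →
      c * (n : ℝ) ^ (Real.logb 2 (w / 8) / (w + 2 * d)) ≤ ∫ x, ((unc x n).card : ℝ) ∂(unif d)) ∧
    (∀ δ : ℝ, 0 < δ → δ < Real.logb 2 (w / 8) / (w + 2 * d) →
      ∃ n₀ : ℕ, 2 ≤ n₀ ∧ ∀ n : ℕ, n₀ ≤ n →
        (unif d).real {x | ((unc x n).card : ℝ) ≤ (n : ℝ) ^ δ} ≤ 1 - (n : ℝ) ^ δ / n ∧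
        1 - (n : ℝ) ^ δ / n < 1 - 1 / n) := by
  refine ⟨(main hd).1, ?_, fun δ h0 h1 => ?_⟩
  · obtain ⟨c, hc, h⟩ := Pool.Agent.KS6_65.NNX.power_lower' hd hw8 hw
    exact ⟨c, hc, h⟩
  · obtain ⟨n₀, hn₀⟩ := eventually_atTop.mp (Pool.Agent.KS6_65.NNX.tail hd hw8 hw h1)
    refine ⟨max n₀ 2, le_max_right _ _, fun n hn => ⟨hn₀ n ((le_max_left _ _).trans hn), ?_⟩⟩
    have hn2 : 2 ≤ n := (le_max_right _ _).trans hn
    have hn1 : (1 : ℝ) < n := by exact_mod_cast (by omega : 1 < n)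
    have h2 : 1 < (n : ℝ) ^ δ := Real.one_lt_rpow hn1 h0
    have h3 : 1 / (n : ℝ) < (n : ℝ) ^ δ / n := by
      gcongr
    linarith

end Pool.Agent.Results.MP_959362_pr.LogExponent
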